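import Pool.Agent.H43.TC.Targets2

/-! te board, module CYC: the region for the cycle -/

set_option autoImplicit false

namespace Pool.Agent.H48.TE

open Pool.Agent.H43.TC

theorem cyc (hCIN : T_CIN) (hCPT : T_CPT) (hHUL : T_HUL) (hBOX : T_BOX) (hONE : T_ONE)
    (hSYM : T_SYM) (hCVX : T_CVX) : T_CYC := by
  intro t ht
  have hV : cyv t ⊆ region 1 t := by
    rintro p (rfl | ⟨m, hm1, -, rfl⟩)
    · exact hONE 1 t (by norm_num)
    · exact hCPT t m ht hm1
  apply Set.Subset.antisymm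
  · rintro ⟨x, y⟩ h
    have h' := hSYM 1 t x y h
    obtain ⟨h1, h2, h3, h4⟩ := hBOX 1 t x y (by norm_num) h
    exact hHUL t x y ht h1 h2 h3 h4 (fun m => hCIN t m x y ht h) (fun m => hCIN t m y x ht h')
  · refine convexHull_min ?_ (hCVX 1 t (by norm_num))
    rintro p (hp | ⟨⟨x, y⟩, hp, rfl⟩)
    · exact hV hp
    · exact hSYM 1 t x y (hV hp)

end Pool.Agent.H48.TE
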