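import Pool.Agent.H43.TC.Targets2

/-! te board, module EXB: elementary properties of the extents -/

set_option autoImplicit false

namespace Pool.Agent.H48.TE

open Pool.Agent.H43.TC

theorem exb : T_EXB := by
  intro t
  induction t with
  | zero =>
    refine ⟨rfl, fun p hp => ?_⟩
    have hp' : p ∈ [((0 : ℕ), (0 : ℕ))] := hp
    rw [List.mem_singleton] at hp'
    subst hp'
    exact ⟨le_rfl, fun h => absurd h (by norm_num)⟩
  | succ t ih =>
    constructor
    · show ((ex t).map (fun p : ℕ × ℕ => (p.1 - 1, p.2 + 1)) ++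
        (ex t).map (fun p : ℕ × ℕ => (p.1 + 1, p.2 - 1))).length = 2 ^ (t + 1)
      rw [List.length_append, List.length_map, List.length_map, ih.1, pow_succ]
      ring
    · intro p hp
      have hp' : p ∈ (ex t).map (fun p : ℕ × ℕ => (p.1 - 1, p.2 + 1)) ++
        (ex t).map (fun p : ℕ × ℕ => (p.1 + 1, p.2 - 1)) := hp
      rw [List.mem_append, List.mem_map, List.mem_map] at hp'
      rcases hp' with ⟨q, hq, rfl⟩ | ⟨q, hq, rfl⟩
      · have := ih.2 q hq
        refine ⟨?_, fun _ => ?_⟩ <;> simp only <;> omega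
      · have := ih.2 q hq
        refine ⟨?_, fun _ => ?_⟩ <;> simp only <;> omega

end Pool.Agent.H48.TE
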